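import Mathlib

/-!
# MP_f1fe0b_lc: strict equilibria in all induced subgames do not imply generalized weak acyclicity
-/

namespace Pool.Agent.Results.MP_f1fe0b_lc.Counterexample

/-- A normal-form game with player set `ι`, action sets `A i` and rewards `reward i a`. -/
structure Game (ι : Type) (A : ι → Type) where
  /-- the reward of player `i` at the profile `a` -/
  reward : ι → (∀ i, A i) → ℝ

namespace Game

variable {ι : Type} [DecidableEq ι] {A : ι → Type}

/-- `b ∈ Best^i (a^{-i})`: the action `b` maximises the reward of player `i` when the others play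
according to `a`. -/
def IsBest (G : Game ι A) (i : ι) (a : ∀ j, A j) (b : A i) : Prop :=
  ∀ c : A i, G.reward i (Function.update a i c) ≤ G.reward i (Function.update a i b)

/-- Player `i` is satisfied at `a`. -/
def Satisfied (G : Game ι A) (a : ∀ j, A j) (i : ι) : Prop := G.IsBest i a (a i)

/-- `a` is a pure Nash equilibrium. -/
def IsNash (G : Game ι A) (a : ∀ j, A j) : Prop := ∀ i, G.Satisfied a i

/-- `a` is a strict pure Nash equilibrium: `Best^i (a^{-i}) = {a^i}` for every player `i`. -/
def IsStrictNash (G : Game ι A) (a : ∀ j, A j) : Prop := ∀ i b, G.IsBest i a b ↔ b = a i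

open Classical in
/-- The profile `(a^N, c^{-N})`. -/
noncomputable def combine (N : Set ι) (c : ∀ i : {i // i ∉ N}, A i) (a : ∀ i : {i // i ∈ N}, A i) :
    ∀ j, A j :=
  fun j => if h : j ∈ N then a ⟨j, h⟩ else c ⟨j, h⟩

/-- The induced subgame with player set `N` in which the players outside `N` play `c`. -/
noncomputable def induced (G : Game ι A) (N : Set ι) (c : ∀ i : {i // i ∉ N}, A i) :
    Game {i // i ∈ N} (fun i => A i) where
  reward i a := G.reward i (combine N c a)

/-- The edges of the satisficing graph: satisfied players keep their actions. -/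
def Edge (G : Game ι A) (a a' : ∀ j, A j) : Prop := ∀ i, G.Satisfied a i → a' i = a i

/-- Generalized weak acyclicity: from every profile a directed path of the satisficing graph leads
to a pure Nash equilibrium. -/
def GeneralizedWeaklyAcyclic (G : Game ι A) : Prop :=
  ∀ a, ∃ a', Relation.ReflTransGen G.Edge a a' ∧ G.IsNash a'

end Game

/-- the unique best response of the players `0`, `1`, `2` as a function of the actions of the
players `0`, `1`, `2` -/
def F : Fin 3 → Fin 3 → Fin 3 → Fin 3 → Fin 3
  | 0, _, y, z => if z = 0 then 1 else if z = 1 then 0 else y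
  | 1, x, _, z => if x = 2 then z else x
  | 2, x, y, _ => if y = 2 then (if x = 0 then 1 else if x = 1 then 0 else 2) else y

/-- the trap: no equilibrium can be reached from here -/
def K (x y z : Fin 3) : Prop :=
  (y = 0 ∧ z = 0) ∨ (x = 1 ∧ z = 0) ∨ (x = 1 ∧ y = 1) ∨ (y = 1 ∧ z = 1) ∨ (x = 0 ∧ z = 1) ∨
    (x = 0 ∧ y = 0)

instance (x y z : Fin 3) : Decidable (K x y z) := by unfold K; infer_instance

section

variable {n : ℕ} (hn : 3 ≤ n)

/-- the best response functions of the game -/
def f (i : Fin n) (a : Fin n → Fin 3) : Fin 3 :=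
  if h : i.val < 3 then F ⟨i, h⟩ (a ⟨0, by omega⟩) (a ⟨1, by omega⟩) (a ⟨2, by omega⟩) else 0

/-- the game -/
noncomputable def G : Game (Fin n) (fun _ => Fin 3) where
  reward i a := if a i = f hn i a then 1 else 0

theorem F_irrel : (∀ x x' y z, F 0 x y z = F 0 x' y z) ∧ (∀ x y y' z, F 1 x y z = F 1 x y' z) ∧
    (∀ x y z z', F 2 x y z = F 2 x y z') := by decide

theorem f_update (i : Fin n) (a : Fin n → Fin 3) (b : Fin 3) :
    f hn i (Function.update a i b) = f hn i a := by
  have p0 : 0 < n := lt_of_lt_of_le (by norm_num) hn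
  have p1 : 1 < n := lt_of_lt_of_le (by norm_num) hn
  have p2 : 2 < n := lt_of_lt_of_le (by norm_num) hn
  unfold f
  split_ifs with h
  · have hi : i = ⟨0, p0⟩ ∨ i = ⟨1, p1⟩ ∨ i = ⟨2, p2⟩ := by
      rcases i with ⟨i, hi⟩
      simp only [Fin.mk.injEq]
      simp only at h
      omega
    rcases hi with rfl | rfl | rfl
    · rw [Function.update_self, Function.update_of_ne (by simp), Function.update_of_ne (by simp)]
      exact F_irrel.1 _ _ _ _
    · rw [Function.update_self, Function.update_of_ne (by simp), Function.update_of_ne (by simp)]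
      exact F_irrel.2.1 _ _ _ _
    · rw [Function.update_self, Function.update_of_ne (by simp), Function.update_of_ne (by simp)]
      exact F_irrel.2.2 _ _ _ _
  · rfl

theorem isBest_iff (i : Fin n) (a : Fin n → Fin 3) (b : Fin 3) :
    (G hn).IsBest i a b ↔ b = f hn i a := by
  have key : ∀ c, (G hn).reward i (Function.update a i c) = if c = f hn i a then 1 else 0 := by
    intro c
    show (if Function.update a i c i = f hn i (Function.update a i c) then (1 : ℝ) else 0) = _
    rw [f_update, Function.update_self]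
  constructor
  · intro h
    have h1 := h (f hn i a)
    rw [key, key, if_pos rfl] at h1
    by_contra h2
    rw [if_neg h2] at h1
    norm_num at h1
  · intro h c
    rw [key, key, if_pos h]
    split_ifs <;> norm_num

theorem sat_iff (i : Fin n) (a : Fin n → Fin 3) :
    (G hn).Satisfied a i ↔ a i = f hn i a := isBest_iff hn i a (a i)

/-- equilibria of the subgames among the first three players -/
theorem exists_fixed : ∀ (p q r : Bool) (x y z : Fin 3), ∃ x' y' z' : Fin 3,
    (p = true → x' = F 0 x' y' z') ∧ (p = false → x' = x) ∧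
    (q = true → y' = F 1 x' y' z') ∧ (q = false → y' = y) ∧
    (r = true → z' = F 2 x' y' z') ∧ (r = false → z' = z) := by decide

theorem K_closed : ∀ x y z x' y' z' : Fin 3, K x y z → (x = F 0 x y z → x' = x) →
    (y = F 1 x y z → y' = y) → (z = F 2 x y z → z' = z) → K x' y' z' := by decide

theorem K_not_nash : ∀ x y z : Fin 3, K x y z →
    ¬ (x = F 0 x y z ∧ y = F 1 x y z ∧ z = F 2 x y z) := by decide

theorem f_zero (a : Fin n → Fin 3) : f hn ⟨0, by omega⟩ a =
    F 0 (a ⟨0, by omega⟩) (a ⟨1, by omega⟩) (a ⟨2, by omega⟩) := rfl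
theorem f_one (a : Fin n → Fin 3) : f hn ⟨1, by omega⟩ a =
    F 1 (a ⟨0, by omega⟩) (a ⟨1, by omega⟩) (a ⟨2, by omega⟩) := rfl
theorem f_two (a : Fin n → Fin 3) : f hn ⟨2, by omega⟩ a =
    F 2 (a ⟨0, by omega⟩) (a ⟨1, by omega⟩) (a ⟨2, by omega⟩) := rfl
theorem f_ge (a : Fin n → Fin 3) (i : Fin n) (hi : 3 ≤ i.val) : f hn i a = 0 := by
  unfold f
  rw [dif_neg (by omega)]

/-- the trap in the game with `n` players -/
def Trap (a : Fin n → Fin 3) : Prop :=
  K (a ⟨0, by omega⟩) (a ⟨1, by omega⟩) (a ⟨2, by omega⟩) ∧ ∀ i : Fin n, 3 ≤ i.val → a i = 0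

theorem trap_edge {a a' : Fin n → Fin 3} (h : Trap hn a) (he : (G hn).Edge a a') :
    Trap hn a' := by
  have he' : ∀ i, a i = f hn i a → a' i = a i := fun i hi => he i ((sat_iff hn i a).2 hi)
  refine ⟨K_closed _ _ _ _ _ _ h.1 (he' ⟨0, by omega⟩) (he' ⟨1, by omega⟩) (he' ⟨2, by omega⟩),
    fun i hi => ?_⟩
  have h1 := h.2 i hi
  rw [he' i (by rw [h1, f_ge hn a i hi])]
  exact h1

theorem trap_not_nash {a : Fin n → Fin 3} (h : Trap hn a) : ¬ (G hn).IsNash a := by
  intro h1
  have h2 : ∀ i, a i = f hn i a := fun i => (sat_iff hn i a).1 (h1 i)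
  exact K_not_nash _ _ _ h.1 ⟨h2 ⟨0, by omega⟩, h2 ⟨1, by omega⟩, h2 ⟨2, by omega⟩⟩

theorem not_gwa : ¬ (G hn).GeneralizedWeaklyAcyclic := by
  intro h
  obtain ⟨a', h1, h2⟩ := h (fun _ => 0)
  have h0 : Trap hn (fun _ => 0) := ⟨by show K 0 0 0; decide, fun _ _ => rfl⟩
  have h3 : Trap hn a' := by
    clear h2
    induction h1 with
    | refl => exact h0
    | tail _ he ih => exact trap_edge hn ih he
  exact trap_not_nash hn h3 h2

open Classical in
theorem induced_strict (N : Set (Fin n)) (c : ∀ _ : {i // i ∉ N}, Fin 3) :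
    ∃ a, ((G hn).induced N c).IsStrictNash a := by
  -- extend `c` by `0`
  let c' : Fin n → Fin 3 := fun j => if h : j ∉ N then c ⟨j, h⟩ else 0
  obtain ⟨x, y, z, h1, h2, h3, h4, h5, h6⟩ := exists_fixed
    (decide ((⟨0, by omega⟩ : Fin n) ∈ N)) (decide ((⟨1, by omega⟩ : Fin n) ∈ N))
    (decide ((⟨2, by omega⟩ : Fin n) ∈ N)) (c' ⟨0, by omega⟩) (c' ⟨1, by omega⟩) (c' ⟨2, by omega⟩)
  simp only [decide_eq_true_eq, decide_eq_false_iff_not] at h1 h2 h3 h4 h5 h6
  -- the full profile
  let b : Fin n → Fin 3 := fun j => if j.val = 0 then x else if j.val = 1 then y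
    else if j.val = 2 then z else c' j
  have hb0 : b ⟨0, by omega⟩ = x := rfl
  have hb1 : b ⟨1, by omega⟩ = y := rfl
  have hb2 : b ⟨2, by omega⟩ = z := rfl
  have hb3 : ∀ j : Fin n, 3 ≤ j.val → b j = c' j := by
    intro j hj
    simp only [b]
    rw [if_neg (by omega), if_neg (by omega), if_neg (by omega)]
  have hcases : ∀ j : Fin n, j = ⟨0, by omega⟩ ∨ j = ⟨1, by omega⟩ ∨ j = ⟨2, by omega⟩ ∨
      3 ≤ j.val := by
    rintro ⟨j, hj⟩
    simp only [Fin.mk.injEq]
    omega
  have hout : ∀ j (h : j ∉ N), b j = c ⟨j, h⟩ := by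
    intro j h
    have hc : c' j = c ⟨j, h⟩ := dif_pos h
    rw [← hc]
    rcases hcases j with rfl | rfl | rfl | hj
    · rw [hb0]; exact h2 h
    · rw [hb1]; exact h4 h
    · rw [hb2]; exact h6 h
    · exact hb3 j hj
  have hin : ∀ j, j ∈ N → b j = f hn j b := by
    intro j h
    rcases hcases j with rfl | rfl | rfl | hj
    · rw [f_zero, hb0, hb1, hb2]; exact h1 h
    · rw [f_one, hb0, hb1, hb2]; exact h3 h
    · rw [f_two, hb0, hb1, hb2]; exact h5 h
    · rw [f_ge hn b j hj, hb3 j hj]
      exact dif_neg (not_not.2 h)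
  refine ⟨fun i => b i, fun i d => ?_⟩
  -- combining a modified profile
  have hcomb : ∀ e : Fin 3, Game.combine N c
      (Function.update (fun i : {i // i ∈ N} => b i) i e) = Function.update b i.val e := by
    intro e
    funext j
    unfold Game.combine
    by_cases hji : j = i.val
    · subst hji
      rw [dif_pos i.2, Function.update_self, Function.update_self]
    · rw [Function.update_of_ne hji]
      by_cases h : j ∈ N
      · rw [dif_pos h, Function.update_of_ne (fun h' => hji (congrArg Subtype.val h'))]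
      · rw [dif_neg h, hout j h]
  have hr : ∀ e : Fin 3, ((G hn).induced N c).reward i
      (Function.update (fun i : {i // i ∈ N} => b i) i e) =
      (G hn).reward i.val (Function.update b i.val e) := by
    intro e
    rw [← hcomb e]
    rfl
  have h7 : ((G hn).induced N c).IsBest i (fun i : {i // i ∈ N} => b i) d ↔
      (G hn).IsBest i.val b d := by
    unfold Game.IsBest
    refine forall_congr' fun e => ?_
    rw [hr, hr]
  rw [h7, isBest_iff, ← hin i.val i.2]

end

/-- For every `n ≥ 3` there is a game with `n` players, each with three actions, such that every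
induced subgame has a strict pure Nash equilibrium but the game is not generalized weakly
acyclic. -/
theorem result : ∀ n : ℕ, 3 ≤ n → ∃ G : Game (Fin n) (fun _ => Fin 3),
    (∀ (N : Set (Fin n)) (c : ∀ _ : {i // i ∉ N}, Fin 3), ∃ a, (G.induced N c).IsStrictNash a) ∧
    ¬ G.GeneralizedWeaklyAcyclic :=
  fun _ hn => ⟨G hn, induced_strict hn, not_gwa hn⟩

end Pool.Agent.Results.MP_f1fe0b_lc.Counterexample
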